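import Pool.Agent.Helper21.DN.Stmts

set_option autoImplicit false

namespace Pool.Agent.Helper21.DN

universe u

theorem emb_center {p : ℕ} [Fact p.Prime] {P : Type} [Group P] [Finite P] (hP : IsPGroup p P)
    (N : Subgroup P) [N.Normal] (hN : N ≠ ⊥) : ∃ z ∈ N, z ∈ Subgroup.center P ∧ orderOf z = p := by
  have hfp := (hP.of_equiv ConjAct.toConjAct).exists_fixed_point_of_prime_dvd_card_of_fixed_point N
    (a := (1 : N)) (by
      have h1 : 1 < Nat.card N := (Subgroup.one_lt_card_iff_ne_bot N).2 hN
      have h2 := hP.to_subgroup N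
      obtain ⟨m, hm⟩ := IsPGroup.iff_card.1 h2
      rw [hm] at h1 ⊢
      have : m ≠ 0 := by
        rintro rfl
        simp at h1
      exact dvd_pow_self p this)
    (by
      rw [MulAction.mem_fixedPoints]
      intro g
      exact smul_one g)
  obtain ⟨b, hb, hb1⟩ := hfp
  rw [MulAction.mem_fixedPoints] at hb
  have hbc : (b : P) ∈ Subgroup.center P := by
    rw [Subgroup.mem_center_iff]
    intro g
    have h1 := congrArg Subtype.val (hb (ConjAct.toConjAct g))
    rw [ConjAct.Subgroup.val_conj_smul, ConjAct.smul_def, ConjAct.ofConjAct_toConjAct] at h1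
    rw [mul_inv_eq_iff_eq_mul] at h1
    exact h1
  have hne : N ⊓ Subgroup.center P ≠ ⊥ := by
    intro h
    have h1 : (b : P) ∈ N ⊓ Subgroup.center P := ⟨b.2, hbc⟩
    rw [h, Subgroup.mem_bot] at h1
    exact hb1 (Subtype.ext h1.symm)
  have hdvd : p ∣ Nat.card (N ⊓ Subgroup.center P : Subgroup P) := by
    have h1 : 1 < Nat.card (N ⊓ Subgroup.center P : Subgroup P) :=
      (Subgroup.one_lt_card_iff_ne_bot _).2 hne
    have h2 := hP.to_subgroup (N ⊓ Subgroup.center P)
    obtain ⟨m, hm⟩ := IsPGroup.iff_card.1 h2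
    rw [hm] at h1 ⊢
    have : m ≠ 0 := by
      rintro rfl
      simp at h1
    exact dvd_pow_self p this
  obtain ⟨z, hz⟩ := exists_prime_orderOf_dvd_card' p hdvd
  refine ⟨z, z.2.1, z.2.2, ?_⟩
  rw [← hz]
  exact Subgroup.orderOf_coe z

theorem st_EMB (hNTR : ST_NTR.{u}) (hEMB1 : ST_EMB1.{u}) : ST_EMB.{u} := by
  intro p _ k _ _ _ L _ _ _ _
  have hchK : CharP (LaurentSeries k) p := charP_of_injective_ringHom (κ0 k).injective p
  have key : ∀ N : ℕ, ∀ (P : Type) [Group P] [Finite P], Nat.card P = N → IsPGroup p P →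
      ∀ (r : P →* (L ≃ₐ[LaurentSeries k] L)), Function.Surjective r →
      ∃ (M : Type u) (_ : Field M) (_ : Algebra (LaurentSeries k) M) (_ : Algebra L M)
        (_ : IsScalarTower (LaurentSeries k) L M) (_ : FiniteDimensional (LaurentSeries k) M)
        (_ : IsGalois (LaurentSeries k) M) (i : (M ≃ₐ[LaurentSeries k] M) ≃* P),
        ∀ (σ : M ≃ₐ[LaurentSeries k] M) (x : L),
          σ (algebraMap L M x) = algebraMap L M (r (i σ) x) := by
    intro N
    induction N using Nat.strong_induction_on with
    | _ N ih =>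
    intro P _ _ hN hP r hr
    by_cases hker : r.ker = ⊥
    · refine ⟨L, inferInstance, inferInstance, Algebra.id L, IsScalarTower.right, inferInstance,
        inferInstance, (MulEquiv.ofBijective r ⟨(MonoidHom.ker_eq_bot_iff r).1 hker, hr⟩).symm, ?_⟩
      intro σ x
      have h1 : r ((MulEquiv.ofBijective r ⟨(MonoidHom.ker_eq_bot_iff r).1 hker, hr⟩).symm σ) = σ :=
        (MulEquiv.ofBijective r ⟨(MonoidHom.ker_eq_bot_iff r).1 hker, hr⟩).apply_symm_apply σ
      rw [h1]
      rfl
    · obtain ⟨z, hzk, hzc, hzo⟩ := emb_center hP r.ker hker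
      have hnorm : (Subgroup.zpowers z).Normal := by
        constructor
        intro n hn g
        have hnc : n ∈ Subgroup.center P :=
          (Subgroup.zpowers_le.2 hzc) hn
        rw [Subgroup.mem_center_iff] at hnc
        rw [hnc g, mul_inv_cancel_right]
        exact hn
      have hle : Subgroup.zpowers z ≤ r.ker := Subgroup.zpowers_le.2 hzk
      have hcard : Nat.card (P ⧸ Subgroup.zpowers z) < N := by
        have h1 := Subgroup.card_eq_card_quotient_mul_card_subgroup (Subgroup.zpowers z)
        rw [Nat.card_zpowers, hzo, hN] at h1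
        have h2 : 0 < Nat.card (P ⧸ Subgroup.zpowers z) := Nat.card_pos
        have h3 := (Fact.out : p.Prime).one_lt
        rw [h1]
        exact lt_mul_of_one_lt_right h2 h3
      obtain ⟨r', hr'⟩ : ∃ r' : (P ⧸ Subgroup.zpowers z) →* (L ≃ₐ[LaurentSeries k] L),
          ∀ g : P, r' (QuotientGroup.mk' (Subgroup.zpowers z) g) = r g :=
        ⟨QuotientGroup.lift (Subgroup.zpowers z) r hle, fun g => rfl⟩
      have hr's : Function.Surjective r' := by
        intro σ
        obtain ⟨g, hg⟩ := hr σ
        exact ⟨QuotientGroup.mk' _ g, by rw [hr', hg]⟩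
      obtain ⟨M', _, _, _, _, _, _, i', hi'⟩ := ih _ hcard (P ⧸ Subgroup.zpowers z) rfl
        (hP.to_quotient _) r' hr's
      obtain ⟨M, _, _, _, _, _, _, i, hi⟩ := hEMB1 p (LaurentSeries k) M' P
        (i'.symm.toMonoidHom.comp (QuotientGroup.mk' (Subgroup.zpowers z)))
        (i'.symm.surjective.comp (QuotientGroup.mk'_surjective _)) z hzc hzo
        (by
          ext x
          rw [MonoidHom.mem_ker]
          constructor
          · intro h
            have h1 : i'.symm (QuotientGroup.mk' (Subgroup.zpowers z) x) = 1 := h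
            rw [MulEquiv.map_eq_one_iff] at h1
            exact (QuotientGroup.eq_one_iff x).1 h1
          · intro h
            show i'.symm (QuotientGroup.mk' (Subgroup.zpowers z) x) = 1
            rw [MulEquiv.map_eq_one_iff]
            exact (QuotientGroup.eq_one_iff x).2 h)
        (fun f => hNTR p k M' f)
      obtain ⟨alg, halg⟩ : ∃ alg : Algebra L M, ∀ x, @algebraMap L M _ _ alg x =
          algebraMap M' M (algebraMap L M' x) :=
        ⟨((algebraMap M' M).comp (algebraMap L M')).toAlgebra, fun x => rfl⟩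
      refine ⟨M, inferInstance, inferInstance, alg, ?_, inferInstance, inferInstance, i, ?_⟩
      · refine IsScalarTower.of_algebraMap_eq ?_
        intro x
        rw [halg, IsScalarTower.algebraMap_apply (LaurentSeries k) M' M,
          IsScalarTower.algebraMap_apply (LaurentSeries k) L M']
      · intro σ x
        rw [halg, halg, hi, ← hr']
        have h1 : i' ((i'.symm.toMonoidHom.comp (QuotientGroup.mk' (Subgroup.zpowers z))) (i σ)) =
            QuotientGroup.mk' (Subgroup.zpowers z) (i σ) := i'.apply_symm_apply _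
        rw [hi', h1]
  intro P _ _ hP r hr
  exact key _ P rfl hP r hr

end Pool.Agent.Helper21.DN
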