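import Pool.Agent.Helper21.DN.Stmts

set_option autoImplicit false

namespace Pool.Agent.Helper21.DN

universe u

open scoped Classical in
theorem fi2_phi_equiv {G G' : Type u} [Group G] [Fintype G] [Group G'] [Fintype G'] (e : G ≃* G')
    (s : G → ℕ) (s' : G' → ℕ) (h : ∀ g, s g = s' (e g)) (u : ℝ) : phi s u = phi s' u := by
  unfold phi
  rw [Fintype.card_congr e.toEquiv]
  congr 2
  apply Finset.sum_equiv e.toEquiv
  · intro g
    rw [Finset.mem_filter, Finset.mem_filter]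
    simp
  · intro g _
    rw [h]
    rfl

theorem fi2_as (p : ℕ) [Fact p.Prime] {M : Type u} [Field M] [CharP M p] {d : ℕ}
    (ψ : Fin d → ZMod p) (y A : Fin d → M) (h : ∀ i, y i ^ p - y i = A i) :
    (∑ i, ((ψ i).val : M) * y i) ^ p - ∑ i, ((ψ i).val : M) * y i = ∑ i, ((ψ i).val : M) * A i := by
  rw [sum_pow_char, ← Finset.sum_sub_distrib]
  apply Finset.sum_congr rfl
  intro i _
  rw [mul_pow, ← h]
  have h1 : (((ψ i).val : M)) ^ p = ((ψ i).val : M) := by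
    rw [← frobenius_def]
    exact map_natCast (frobenius M p) _
  rw [h1]
  ring

theorem fi2_smul (N : ℕ) (hN : 0 < N) (x : WithTop ℤ) (a : ℤ)
    (h : ((-((N : ℤ) * a) : ℤ) : WithTop ℤ) = N • x) : x = ((-a : ℤ) : WithTop ℤ) := by
  cases x with
  | top =>
    exfalso
    have : (N : ℕ) • (⊤ : WithTop ℤ) = ⊤ := by
      obtain ⟨N', rfl⟩ : ∃ N', N = N' + 1 := ⟨N - 1, by omega⟩
      rw [succ_nsmul, WithTop.add_top]
    rw [this] at h
    exact WithTop.coe_ne_top h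
  | coe b =>
    rw [← WithTop.coe_nsmul] at h
    have h1 := WithTop.coe_injective h
    rw [nsmul_eq_mul] at h1
    have h2 : (N : ℤ) * b = N * (-a) := by rw [← h1]; ring
    have h3 : b = -a := mul_left_cancel₀ (by exact_mod_cast hN.ne') h2
    rw [h3]

theorem st_FI2 (hFI1 : ST_FI1.{u}) (hBCH : ST_BCH.{u}) (hASC : ST_ASC.{u}) (hPOL : ST_POL.{u})
    (hPH1 : ST_PH1.{u}) (hRFV : ST_RFV.{u}) : ST_FI2.{u} := by
  classical
  intro p _ hp2 k K M _ _ _ _ _ _ _ _ κ v hRam hP g hg w T j hw hT hj hjq hjs n d e z y hn hpn hpn1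
    hy ψ hψ
  obtain ⟨E, hE, hwE, hfin, hfix, hs1, hvw⟩ := hFI1 p k K M κ v hRam hP g hg w T j hw hT hj hjq hjs
  have hRamE := hBCH k K M κ v hRam E
  obtain ⟨vE, hTV, hvE⟩ := hRam.sub E
  have hNpos : 0 < Module.finrank E M := Module.finrank_pos
  have hchM : CharP M p := charP_of_injective_ringHom ((algebraMap K M).comp κ).injective p
  obtain ⟨W, hW⟩ : ∃ W : E, (W : M) = w := ⟨⟨w, hwE⟩, rfl⟩
  have hvW : vE W = ((-1 : ℤ) : WithTop ℤ) := by
    apply fi2_smul (Module.finrank E M) hNpos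
    rw [← hvE, hW, hvw, mul_one]
  obtain ⟨eψ, heψ⟩ : ∃ eψ : k, eψ = ∑ i, ((ψ i).val : k) * e i := ⟨_, rfl⟩
  obtain ⟨zψ, hzψ⟩ : ∃ zψ : k, zψ = ∑ i, ((ψ i).val : k) * z i := ⟨_, rfl⟩
  rw [← heψ, ← hzψ] at hψ
  rw [← hzψ]
  obtain ⟨h, hh⟩ := hPOL p k E ((algebraMap K E).comp κ) vE (fun c hc => hTV.alg c hc) g hg W hvW n hn
    hpn hpn1 hp2 eψ zψ hψ
  obtain ⟨X, hX⟩ : ∃ X : E, X = (W ^ p ^ g - W) ^ n * ((algebraMap K E).comp κ) eψ -
      ((W ^ p ^ g - W) ^ n * W + (W ^ p ^ g - W) ^ (n + 1) *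
      ((algebraMap K E).comp κ) (((n : k) + 1)⁻¹)) * ((algebraMap K E).comp κ) zψ := ⟨_, rfl⟩
  rw [← hX] at hh
  obtain ⟨m, hm⟩ : ∃ m : ℕ, m = p ^ g * (n - 1) + (if zψ = 0 then 1 else 2) := ⟨_, rfl⟩
  rw [← hm] at hh
  obtain ⟨Y, hY⟩ : ∃ Y : M, Y = ∑ i, ((ψ i).val : M) * y i := ⟨_, rfl⟩
  have hYX : Y ^ p - Y = algebraMap E M X := by
    rw [hY, fi2_as p ψ y _ hy]
    have e1 : algebraMap E M X = (w ^ p ^ g - w) ^ n * algebraMap K M (κ eψ) -
        ((w ^ p ^ g - w) ^ n * w + (w ^ p ^ g - w) ^ (n + 1) *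
        algebraMap K M (κ (((n : k) + 1)⁻¹))) * algebraMap K M (κ zψ) := by
      rw [hX, ← hW]
      simp only [map_sub, map_mul, map_add, map_pow]
      rfl
    have e2 : algebraMap K M (κ eψ) = ∑ i, ((ψ i).val : M) * algebraMap K M (κ (e i)) := by
      rw [heψ]
      simp only [map_sum, map_mul, map_natCast]
    have e3 : algebraMap K M (κ zψ) = ∑ i, ((ψ i).val : M) * algebraMap K M (κ (z i)) := by
      rw [hzψ]
      simp only [map_sum, map_mul, map_natCast]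
    rw [e1, e2, e3, Finset.mul_sum, Finset.mul_sum, ← Finset.sum_sub_distrib]
    apply Finset.sum_congr rfl
    intro i _
    ring
  have hpm : ¬ p ∣ m := by
    intro hdvd
    have hpp := (Fact.out : p.Prime)
    have e1 : p ∣ p ^ g * (n - 1) := dvd_mul_of_dvd_left (dvd_pow_self p (by omega)) _
    rw [hm] at hdvd
    have e2 := (Nat.dvd_add_right e1).1 hdvd
    split_ifs at e2 with hz
    · exact hpp.one_lt.ne' (Nat.dvd_one.1 e2)
    · have := Nat.le_of_dvd (by norm_num) e2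
      have := hpp.two_le
      omega
  have hm1 : 1 ≤ m := by
    rw [hm]
    split_ifs
    · omega
    · omega
  obtain ⟨hA1, hA2⟩ := hASC p k E M ((algebraMap K E).comp κ) v hRamE
    ((hP.to_subgroup E.fixingSubgroup).of_equiv (IntermediateField.fixingSubgroupEquiv E)) X h Y m hm1
    hpm hYX (by
      show v ((X - (h ^ p - h) : E) : M) = _
      rw [hvE, hh, ← WithTop.coe_nsmul, nsmul_eq_mul]
      congr 1
      ring)
  have hRF := hRFV p k K M κ v hRam hP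
  have hout : ∀ σ : M ≃ₐ[K] M, σ ∉ E.fixingSubgroup → s v σ = 1 := by
    intro σ hσ
    exact hs1 σ (fun h => hσ ((hfix σ).2 h))
  have hFt : Fintype E.fixingSubgroup := Fintype.ofFinite _
  have hidx : E.fixingSubgroup.index = p ^ g := by
    rw [← IntermediateField.finrank_eq_fixingSubgroup_index, hfin]
  have hqpos : (0 : ℝ) < ((p ^ g : ℕ) : ℝ) := by
    exact_mod_cast pow_pos (Fact.out : p.Prime).pos g
  have hkey : ∀ (τ : M ≃ₐ[E] M) (σ : M ≃ₐ[K] M) (hσ : σ ∈ E.fixingSubgroup), σ ≠ 1 →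
      IntermediateField.fixingSubgroupEquiv E ⟨σ, hσ⟩ = τ →
      phi (fun σ : M ≃ₐ[K] M => s v σ) (s v σ) =
        1 + (phi (fun τ : M ≃ₐ[E] M => s v τ) (s v τ) - 1) / ((p ^ g : ℕ) : ℝ) := by
    intro τ σ hσ hσ1 hτ
    have e1 := hPH1 (M ≃ₐ[K] M) (fun σ : M ≃ₐ[K] M => s v σ) hRF E.fixingSubgroup hout
      ⟨σ, hσ⟩ (fun h => hσ1 (congrArg Subtype.val h))
    rw [hidx] at e1
    have e2 : s v τ = s v σ := by
      rw [← hτ]
      rfl
    have e3 := fi2_phi_equiv (IntermediateField.fixingSubgroupEquiv E)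
      (fun h : E.fixingSubgroup => s v (h : M ≃ₐ[K] M)) (fun τ : M ≃ₐ[E] M => s v τ)
      (fun _ => rfl) ((s v σ : ℕ) : ℝ)
    rw [e2, ← e3]
    exact e1
  have hsum : ∀ σ : M ≃ₐ[K] M, ∑ i, ((ψ i).val : M) * (σ (y i) - y i) = σ Y - Y := by
    intro σ
    rw [hY, map_sum, ← Finset.sum_sub_distrib]
    apply Finset.sum_congr rfl
    intro i _
    rw [map_mul, map_natCast]
    ring
  have hval : 1 + ((m : ℝ) - 1) / ((p ^ g : ℕ) : ℝ) =
      (if zψ = 0 then (n : ℝ) else (n : ℝ) + 1 / ((p ^ g : ℕ) : ℝ)) := by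
    have hn1 : ((n - 1 : ℕ) : ℝ) = (n : ℝ) - 1 := by
      rw [Nat.cast_sub (by omega), Nat.cast_one]
    rw [hm]
    split_ifs
    · rw [Nat.cast_add, Nat.cast_mul, hn1, Nat.cast_one]
      field_simp
      ring
    · rw [Nat.cast_add, Nat.cast_mul, hn1, Nat.cast_ofNat]
      field_simp
      ring
  constructor
  · intro σ hσw hσy
    rw [hsum] at hσy
    have hσY : σ Y ≠ Y := fun h => hσy (by rw [h, sub_self])
    have hσ1 : σ ≠ 1 := by
      intro h
      rw [h] at hσY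
      exact hσY rfl
    have hmem := (hfix σ).2 hσw
    rw [hkey _ σ hmem hσ1 rfl, ← hval]
    have := hA1 (IntermediateField.fixingSubgroupEquiv E ⟨σ, hmem⟩) hσY
    have h2 : (phi (fun τ : M ≃ₐ[E] M => s v τ)
        (s v (IntermediateField.fixingSubgroupEquiv E ⟨σ, hmem⟩)) - 1) / ((p ^ g : ℕ) : ℝ)
        ≤ ((m : ℝ) - 1) / ((p ^ g : ℕ) : ℝ) :=
      div_le_div_of_nonneg_right (by linarith) hqpos.le
    linarith
  · obtain ⟨τ, hτ1, hτ2⟩ := hA2
    obtain ⟨⟨σ, hσ⟩, hστ⟩ := (IntermediateField.fixingSubgroupEquiv E).surjective τ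
    have hσY : σ Y ≠ Y := by
      rw [← hστ] at hτ1
      exact hτ1
    have hσ1 : σ ≠ 1 := by
      intro h
      rw [h] at hσY
      exact hσY rfl
    refine ⟨σ, (hfix σ).1 hσ, ?_, ?_⟩
    · rw [hsum]
      exact sub_ne_zero.2 hσY
    · rw [hkey τ σ hσ hσ1 hστ, ← hval, hτ2]

end Pool.Agent.Helper21.DN
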